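import Pool.Agent.H8.VR.Defs

/-!
# Sizes of the structures generated by a grammar are eventually periodic
-/

set_option autoImplicit false

namespace Pool.Agent.H8.MP

open Pool.Agent.H8.VR

/-- `S` is eventually periodic -/
def EvPer (S : Set ℕ) : Prop := ∃ p N, 0 < p ∧ ∀ n, N ≤ n → (n ∈ S ↔ n + p ∈ S)

theorem ev_of_up (S : Set ℕ) (N P : ℕ) (hP : 0 < P) (h : ∀ n, N ≤ n → n ∈ S → n + P ∈ S) :
    EvPer S := by
  classical
  have h1 : ∀ n, N ≤ n → n ∈ S → ∀ t, n + t * P ∈ S := by
    intro n hn hS t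
    induction t with
    | zero => simpa using hS
    | succ t ih =>
      have := h (n + t * P) (by omega) ih
      rw [Nat.succ_mul, ← Nat.add_assoc]
      exact this
  have h2 : ∀ r : Fin P, ∃ M, ∀ n, M ≤ n → n % P = r → ((n ∈ S) ↔ ∃ k, N ≤ k ∧ k % P = r ∧ k ∈ S) := by
    intro r
    by_cases hr : ∃ k, N ≤ k ∧ k % P = r ∧ k ∈ S
    · obtain ⟨k, hk1, hk2, hk3⟩ := hr
      refine ⟨k, fun n hn hnr => ⟨fun _ => ⟨k, hk1, hk2, hk3⟩, fun _ => ?_⟩⟩
      obtain ⟨t, ht⟩ : ∃ t, n = k + t * P := by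
        have h3 : (n - k) % P = 0 := by
          have h4 : (n : ℤ) % P = k % P := by
            have : n % P = k % P := by rw [hnr, hk2]
            exact_mod_cast this
          have h5 : P ∣ n - k := (Nat.modEq_iff_dvd' hn).1 (by
            show k % P = n % P
            rw [hnr, hk2])
          exact Nat.mod_eq_zero_of_dvd h5
        obtain ⟨t, ht⟩ := Nat.dvd_of_mod_eq_zero h3
        refine ⟨t, ?_⟩
        rw [Nat.mul_comm] at ht
        omega
      rw [ht]
      exact h1 k hk1 hk3 t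
    · refine ⟨N, fun n hn hnr => ⟨fun hS => ⟨n, hn, hnr, hS⟩, fun h' => absurd h' hr⟩⟩
  choose M hM using h2
  refine ⟨P, ∑ r, M r, hP, fun n hn => ?_⟩
  have hr : n % P < P := Nat.mod_lt _ hP
  have h3 : M ⟨n % P, hr⟩ ≤ n :=
    (Finset.single_le_sum (f := M) (fun _ _ => Nat.zero_le _) (Finset.mem_univ _)).trans hn
  rw [hM ⟨n % P, hr⟩ n h3 rfl, hM ⟨n % P, hr⟩ (n + P) (by omega) (by simp)]

section
variable {N Q : Type}

/-- the sizes which can be derived -/
inductive Der (G : Gram N Q) : N → ℕ → Prop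
  | pt (x : Pt N Q) (hx : x ∈ G.pts) : Der G x.s 1
  | op (o : Op N Q) (ho : o ∈ G.ops) (a b : ℕ) (ha : Der G o.s a) (hb : Der G o.t b) :
      Der G o.u (a + b)

theorem Der.pos {G : Gram N Q} {s : N} {n : ℕ} (h : Der G s n) : 0 < n := by
  induction h with
  | pt x hx => exact Nat.one_pos
  | op o ho a b ha hb ih1 ih2 => omega

/-- the size can be pumped -/
def Pump (G : Gram N Q) (D : ℕ) (s : N) (n : ℕ) : Prop :=
  ∃ d, 0 < d ∧ d ≤ D ∧ ∀ t, Der G s (n + t * d)

/-- a chain of different sorts -/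
def Inv (G : Gram N Q) (l : List N) (s : N) (n : ℕ) : Prop :=
  l ≠ [] ∧ l.Nodup ∧ 2 * n ≤ 2 ^ l.length ∧ Der G s n ∧
    ∀ s' ∈ l, ∃ x, Der G s' x ∧ x ≤ n ∧ ∀ y, Der G s' y → Der G s (y + (n - x))

theorem inv_step {G : Gram N Q} (D : ℕ) (hD : ∀ l : List N, l.Nodup → 2 ^ l.length ≤ D)
    {s t u : N} {a b : ℕ} (l : List N) (h : Inv G l s a) (hb : Der G t b) (hba : 2 * b ≤ 2 ^ l.length)
    (hop : ∀ x y, Der G s x → Der G t y → Der G u (x + y)) :
    Pump G D u (a + b) ∨ ∃ l, Inv G l u (a + b) := by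
  classical
  obtain ⟨h1, h2, h3, h4, h5⟩ := h
  have hpos := hb.pos
  by_cases hu : u ∈ l
  · left
    obtain ⟨x, hx1, hx2, hx3⟩ := h5 u hu
    refine ⟨a + b - x, by omega, ?_, fun k => ?_⟩
    · have := hD l h2
      omega
    · induction k with
      | zero =>
        rw [Nat.zero_mul]
        exact hop a b h4 hb
      | succ k ih =>
        have h6 := hop _ _ (hx3 _ ih) hb
        have e : a + b + (k + 1) * (a + b - x) = a + b + k * (a + b - x) + (a - x) + b := by
          rw [Nat.succ_mul]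
          omega
        rw [e]
        exact h6
  · right
    refine ⟨u :: l, by simp, List.nodup_cons.2 ⟨hu, h2⟩, ?_, hop a b h4 hb, ?_⟩
    · rw [List.length_cons, pow_succ]
      omega
    · intro s' hs'
      rcases List.mem_cons.1 hs' with rfl | hs'
      · exact ⟨a + b, hop a b h4 hb, le_refl _, fun y hy => by simpa using hy⟩
      · obtain ⟨x, hx1, hx2, hx3⟩ := h5 s' hs'
        refine ⟨x, hx1, by omega, fun y hy => ?_⟩
        have h6 := hop _ _ (hx3 y hy) hb
        have e : y + (a + b - x) = y + (a - x) + b := by omega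
        rw [e]
        exact h6

theorem der_inv {G : Gram N Q} (D : ℕ) (hD : ∀ l : List N, l.Nodup → 2 ^ l.length ≤ D)
    {s : N} {n : ℕ} (h : Der G s n) : Pump G D s n ∨ ∃ l, Inv G l s n := by
  induction h with
  | pt x hx =>
    right
    refine ⟨[x.s], by simp, by simp, by simp, Der.pt x hx, ?_⟩
    intro s' hs'
    rw [List.mem_singleton] at hs'
    subst hs'
    exact ⟨1, Der.pt x hx, le_refl _, fun y hy => by simpa using hy⟩
  | op o ho a b ha hb ih1 ih2 =>
    rcases ih1 with ⟨d, hd1, hd2, hd3⟩ | ⟨l1, h1⟩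
    · left
      refine ⟨d, hd1, hd2, fun t => ?_⟩
      have := Der.op o ho _ b (hd3 t) hb
      have e : a + b + t * d = a + t * d + b := by omega
      rw [e]
      exact this
    rcases ih2 with ⟨d, hd1, hd2, hd3⟩ | ⟨l2, h2⟩
    · left
      refine ⟨d, hd1, hd2, fun t => ?_⟩
      have := Der.op o ho a _ ha (hd3 t)
      have e : a + b + t * d = a + (b + t * d) := by omega
      rw [e]
      exact this
    rcases le_total l2.length l1.length with h | h
    · refine inv_step D hD l1 h1 hb ?_ (fun x y hx hy => Der.op o ho x y hx hy)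
      exact h2.2.2.1.trans (Nat.pow_le_pow_right (by norm_num) h)
    · have h3 := inv_step (u := o.u) D hD l2 h2 ha
        (h1.2.2.1.trans (Nat.pow_le_pow_right (by norm_num) h))
        (fun x y hx hy => by
          rw [Nat.add_comm]
          exact Der.op o ho y x hy hx)
      rw [Nat.add_comm]
      exact h3

/-- the derivable sizes are eventually periodic -/
theorem der_per [Finite N] (G : Gram N Q) (s : N) : EvPer {n | Der G s n} := by
  classical
  haveI := Fintype.ofFinite N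
  set D := 2 ^ Fintype.card N with hD
  have hD' : ∀ l : List N, l.Nodup → 2 ^ l.length ≤ D := fun l hl =>
    Nat.pow_le_pow_right (by norm_num) hl.length_le_card
  refine ev_of_up _ (D + 1) D.factorial (Nat.factorial_pos _) fun n hn h => ?_
  rcases der_inv D hD' h with ⟨d, hd1, hd2, hd3⟩ | ⟨l, h1, h2, h3, h4, h5⟩
  · obtain ⟨t, ht⟩ := Nat.dvd_factorial hd1 hd2
    show Der G s (n + D.factorial)
    rw [ht, Nat.mul_comm]
    exact hd3 t
  · have := hD' l h2
    omega

variable {m : ℕ}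

/-- transport of generated structures -/
theorem gen_map {A B : Type} {G : Gram N Q} {P : ℕ → A → Prop} {R : ℕ → A → A → Prop} {s : N}
    {X : Set A} {c : A → Q} (h : G.Gen m P R s X c) (f : A → B) (hf : Function.Injective f) :
    ∀ (P' : ℕ → B → Prop) (R' : ℕ → B → B → Prop) (c' : B → Q),
      (∀ i a, P' i (f a) ↔ P i a) → (∀ i a b, R' i (f a) (f b) ↔ R i a b) →
      (∀ a ∈ X, c' (f a) = c a) → G.Gen m P' R' s (f '' X) c' := by
  classical
  induction h with
  | pt x hx a c hc hP hR =>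
    intro P' R' c' h1 h2 h3
    rw [Set.image_singleton]
    exact Gram.Gen.pt x hx (f a) c' ((h3 a rfl).trans hc) (fun i hi => (h1 i a).trans (hP i hi))
      fun i hi => (h2 i a a).trans (hR i hi)
  | op o ho X Y c c₁ c₂ g₁ g₂ hd hD hR hX hY ih1 ih2 =>
    intro P' R' c' h1 h2 h3
    rw [Set.image_union]
    have e : ∀ c₀ : A → Q, ∃ d : B → Q, ∀ a, d (f a) = c₀ a := by
      intro c₀
      refine ⟨fun b : B => if h : ∃ a, f a = b then c₀ h.choose else c' b, fun a => ?_⟩
      have h4 : ∃ a', f a' = f a := ⟨a, rfl⟩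
      show (if h : ∃ a', f a' = f a then c₀ h.choose else c' (f a)) = c₀ a
      rw [dif_pos h4, hf h4.choose_spec]
    obtain ⟨d₁, e₁⟩ := e c₁
    obtain ⟨d₂, e₂⟩ := e c₂
    refine Gram.Gen.op o ho (f '' X) (f '' Y) c' d₁ d₂
      (ih1 P' R' _ h1 h2 fun a _ => e₁ a) (ih2 P' R' _ h1 h2 fun a _ => e₂ a)
      ((Set.disjoint_image_iff hf).2 hd) ?_ ?_ ?_ ?_
    · rw [Set.ncard_image_of_injective _ hf, Set.ncard_image_of_injective _ hf]
      exact hD
    · rintro _ ⟨a, ha, rfl⟩ _ ⟨b, hb, rfl⟩ i hi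
      rw [e₁ a, e₂ b, h2, h2]
      exact hR a ha b hb i hi
    · rintro _ ⟨a, ha, rfl⟩
      rw [e₁ a, h3 a (Or.inl ha)]
      exact hX a ha
    · rintro _ ⟨a, ha, rfl⟩
      rw [e₂ a, h3 a (Or.inr ha)]
      exact hY a ha

theorem gen_fin {A : Type} {G : Gram N Q} {P : ℕ → A → Prop} {R : ℕ → A → A → Prop} {s : N}
    {X : Set A} {c : A → Q} (h : G.Gen m P R s X c) : X.Finite ∧ Der G s X.ncard := by
  induction h with
  | pt x hx a c hc hP hR =>
    refine ⟨Set.finite_singleton a, ?_⟩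
    rw [Set.ncard_singleton]
    exact Der.pt x hx
  | op o ho X Y c c₁ c₂ g₁ g₂ hd hD hR hX hY ih1 ih2 =>
    refine ⟨ih1.1.union ih2.1, ?_⟩
    rw [Set.ncard_union_eq hd ih1.1 ih2.1]
    exact Der.op o ho _ _ ih1.2 ih2.2

theorem der_gen {G : Gram N Q} (hG : ∀ o ∈ G.ops, o.D = {n | 0 < n}) {s : N} {n : ℕ}
    (h : Der G s n) : ∃ (A : Type) (_ : Fintype A) (P : ℕ → A → Prop) (R : ℕ → A → A → Prop)
      (c : A → Q), Fintype.card A = n ∧ G.Gen m P R s Set.univ c := by
  induction h with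
  | pt x hx =>
    refine ⟨Unit, inferInstance, fun i _ => x.un i, fun i _ _ => x.lp i, fun _ => x.q, rfl, ?_⟩
    have : (Set.univ : Set Unit) = {()} := by
      ext a
      simp
    rw [this]
    exact Gram.Gen.pt x hx () _ rfl (fun i _ => Iff.rfl) fun i _ => Iff.rfl
  | op o ho a b ha hb ih1 ih2 =>
    obtain ⟨A, _, P, R, c, h1, h2⟩ := ih1
    obtain ⟨B, _, P', R', c', h3, h4⟩ := ih2
    have ha0 := ha.pos
    refine ⟨A ⊕ B, inferInstance, fun i => Sum.elim (P i) (P' i),
      fun i x y => Sum.elim (fun a => Sum.elim (fun b => R i a b) (fun b => o.l i (c a) (c' b)) y)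
        (fun a => Sum.elim (fun b => o.r i (c b) (c' a)) (fun b => R' i a b) y) x,
      Sum.elim (fun a => o.f (c a)) fun b => o.g (c' b), ?_, ?_⟩
    · rw [Fintype.card_sum, h1, h3]
    · have e : (Set.univ : Set (A ⊕ B)) = (Sum.inl '' Set.univ) ∪ (Sum.inr '' Set.univ) := by
        ext x
        rcases x with x | x <;> simp
      rw [e]
      refine Gram.Gen.op o ho _ _ _ (Sum.elim c (fun b => c' b)) (Sum.elim c c')
        (gen_map h2 Sum.inl Sum.inl_injective _ _ _ (fun i a => Iff.rfl) (fun i a b => Iff.rfl)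
          fun a _ => rfl)
        (gen_map h4 Sum.inr Sum.inr_injective _ _ _ (fun i a => Iff.rfl) (fun i a b => Iff.rfl)
          fun a _ => rfl) ?_ ?_ ?_ ?_ ?_
      · rw [Set.disjoint_left]
        rintro _ ⟨a, -, rfl⟩ ⟨b, -, h⟩
        exact absurd h Sum.inr_ne_inl
      · rw [hG o ho, Set.ncard_image_of_injective _ Sum.inl_injective, Set.ncard_univ,
          Nat.card_eq_fintype_card, h1]
        exact lt_of_lt_of_le ha0 (Nat.left_le_pair _ _)
      · rintro _ ⟨a, -, rfl⟩ _ ⟨b, -, rfl⟩ i hi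
        exact ⟨Iff.rfl, Iff.rfl⟩
      · rintro _ ⟨a, -, rfl⟩
        rfl
      · rintro _ ⟨a, -, rfl⟩
        rfl

/-- sizes of the generated structures -/
theorem gram_per [Finite N] (G : Gram N Q) (hG : ∀ o ∈ G.ops, o.D = {n | 0 < n}) (m : ℕ) (s : N) :
    EvPer {n | 0 < n ∧ ∃ (P : ℕ → Fin n → Prop) (R : ℕ → Fin n → Fin n → Prop),
      ∃ c, G.Gen m P R s Set.univ c} := by
  have e : {n | 0 < n ∧ ∃ (P : ℕ → Fin n → Prop) (R : ℕ → Fin n → Fin n → Prop),
      ∃ c, G.Gen m P R s Set.univ c} = {n | Der G s n} := by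
    ext n
    constructor
    · rintro ⟨-, P, R, c, h⟩
      have := (gen_fin h).2
      rwa [Set.ncard_univ, Nat.card_fin] at this
    · intro h
      obtain ⟨A, _, P, R, c, h1, h2⟩ := der_gen (m := m) hG h
      have e := Fintype.equivFinOfCardEq h1
      refine ⟨h.pos, fun i a => P i (e.symm a), fun i a b => R i (e.symm a) (e.symm b),
        fun a => c (e.symm a), ?_⟩
      have h3 := gen_map h2 e e.injective (fun i a => P i (e.symm a))
        (fun i a b => R i (e.symm a) (e.symm b)) (fun a => c (e.symm a))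
        (fun i a => by simp) (fun i a b => by simp) (fun a _ => by simp)
      have h4 : e '' Set.univ = Set.univ := by
        rw [Set.image_univ]
        exact e.surjective.range_eq
      rwa [h4] at h3
  rw [e]
  exact der_per G s

end

end Pool.Agent.H8.MP
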