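import Pool.Agent.H8.MP.PC

/-!
# The tree-width border: everything
-/

set_option autoImplicit false

namespace Pool.Agent.H8.MP

open Pool.Agent.H69.Sp Pool.Agent.H69.VR Pool.Agent.H8.VR Pool.Agent.H8.JS Pool.Agent.H8.MC
open Pool.Agent.H8.DE (DE)

theorem v_9 :
    (∀ C : GClass, Definable C →
      (∃ r, ∀ (n : ℕ) (G : SimpleGraph (Fin n)), C n G → ¬ Minor (grid r) G) →
      ∀ Ψ : MS, BinZero Ψ → EvPer (specF C Ψ) ∧ ∀ φ : C2,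
        (IsSpectrum (specC C Ψ φ) ∧ IsSpectrum (posCompl (specC C Ψ φ))) ∧
          lang (specC C Ψ φ) ∈ DE) ∧
    ∃ Ψ : ℕ → MS, (∀ s, BinZero (Ψ s) ∧ FirstOrder (Ψ s)) ∧
      (∀ C : GClass, (∀ (r n : ℕ) (G : SimpleGraph (Fin n)), Nonempty (G ≃g grid r) → C n G) →
        NEComplete (specF C (Ψ 1)) ∧ (lang (specF C (Ψ 1)) ∈ coNE ↔ NE = coNE)) ∧
      ∀ C : GClass, Definable C → SubClosed C →
        (∀ r, ∃ (n : ℕ) (G : SimpleGraph (Fin n)), C n G ∧ Minor (grid r) G) →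
        ∃ s, NEComplete (specF C (Ψ s)) ∧ (lang (specF C (Ψ s)) ∈ coNE ↔ NE = coNE) :=
  ⟨fun C hD hG Ψ hΨ => ⟨specF_per C hD hG Ψ hΨ, fun φ => v_8.1 C hD hG Ψ φ hΨ⟩, v_8.2⟩

end Pool.Agent.H8.MP
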