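import Pool.Agent.H8.MP.Per
import Pool.Agent.H8.MF.All

/-!
# Classes of graphs without a grid minor: the spectra of counting monadic second-order logic are
eventually periodic
-/

set_option autoImplicit false

namespace Pool.Agent.H8.MP

open Pool.Agent.H69.Sp Pool.Agent.H69.VR Pool.Agent.H8.VR Pool.Agent.H8.MC

/-- a grammar and a formula of monadic second-order logic -/
theorem specM_per (N Q : Type) [Finite N] [Finite Q] (G : Gram N Q)
    (hG : ∀ o ∈ G.ops, o.D = {n | 0 < n}) (m : ℕ) (s₀ : N) (Ψ : MS) (hΨ : Ψ.Below m) (φ : C2)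
    (hφ : ∀ (A : Type) (P : ℕ → A → Prop) (R : ℕ → A → A → Prop) (v : Bool → A), φ.Sat P R v) :
    EvPer (specM G m s₀ Ψ φ) := by
  rw [specM_eq N Q G m s₀ Ψ hΨ φ]
  have := MS.finT Q (Ψ.clo Ψ.vb)
  have h := gram_per (ext G s₀ (Ψ.clo Ψ.vb)) (fun o ho => by
    obtain ⟨o', ho', a, b, -, -, -, -, -, -, k, -⟩ := mem_ops.1 ho
    rw [k]
    exact hG o' ho') m none
  have e : specG (ext G s₀ (Ψ.clo Ψ.vb)) m none φ =
      {n | 0 < n ∧ ∃ (P : ℕ → Fin n → Prop) (R : ℕ → Fin n → Fin n → Prop),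
        ∃ c, (ext G s₀ (Ψ.clo Ψ.vb)).Gen m P R none Set.univ c} := by
    ext n
    refine and_congr_right fun _ => exists_congr fun P => exists_congr fun R => ?_
    exact ⟨fun h => h.1, fun h => ⟨h, fun v => hφ _ P R v⟩⟩
  rw [e]
  exact h

/-- the spectrum without further binary relations is a special case -/
theorem specF_eq (C : GClass) (Ψ : MS) (hΨ : BinZero Ψ) :
    specF C Ψ = specC C Ψ (C2.eq true true) := by
  ext n
  refine and_congr_right fun _ => exists_congr fun P => ?_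
  constructor
  · rintro ⟨G, hG, h⟩
    exact ⟨fun _ => G.Adj, G, hG, fun a b => Iff.rfl, h, fun v => rfl⟩
  · rintro ⟨R, G, hG, hR, h, -⟩
    refine ⟨G, hG, fun e V => ?_⟩
    have h0 : R 0 = G.Adj := by
      funext a b
      exact propext (hR a b)
    exact (Pool.Agent.H33.MC.clo_congr (R := R) (R' := fun _ => G.Adj) h0 Ψ hΨ e V).1 (h e V)

/-- classes without a grid minor -/
theorem specF_per (C : GClass) (hD : Definable C)
    (hG : ∃ r, ∀ (n : ℕ) (G : SimpleGraph (Fin n)), C n G → ¬ Minor (grid r) G)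
    (Ψ : MS) (hΨ : BinZero Ψ) : EvPer (specF C Ψ) := by
  obtain ⟨r, hr⟩ := hG
  obtain ⟨k, hk⟩ := t_grid r
  rw [specF_eq C Ψ hΨ]
  obtain ⟨m, Ψ1, h1, h2⟩ := Pool.Agent.H69.DE.specC_eq t_nlm C k hD (fun n G hn hC => by
    have : Nonempty (Fin n) := ⟨⟨0, hn⟩⟩
    exact hk (Fin n) G (hr n G hC)) Ψ (C2.eq true true) hΨ
  rw [h2, specWM_eq]
  refine specM_per Unit (Fin k) (cwG k (m + 1)) (fun o ho => ?_) (m + 1) () Ψ1 h1 _ ?_
  · obtain ⟨x, -, rfl⟩ := List.mem_map.1 ho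
    rfl
  · intro A P R v
    rfl

end Pool.Agent.H8.MP
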